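import Pool.Agent.helper16.CVL.Spec

/-!
# Row cv:CHB (MP_70a088_an, rational maps, CVL): change of the base point
-/

set_option autoImplicit false

open Complex Metric Set Filter Topology MeasureTheory
open HY (UD T S hd UN RM)
open RT (UC TD rm lf cr pd bl gr hdf Lf UP)

noncomputable section

namespace CVL

theorem CHB_S {U : Filter ℕ} {a x : ℕ → ℂ} {a₀ x₀ : ℂ} (ha : Tendsto a U (𝓝 a₀)) (hx : Tendsto x U (𝓝 x₀)) (ha0 : a₀ ∈ UD) (hx0 : x₀ ∈ UD) :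
    Tendsto (fun j => S (a j) (x j)) U (𝓝 (S a₀ x₀)) := by
  unfold HY.S
  rw [HY.UD, mem_ball_zero_iff] at ha0 hx0
  have hne : 1 + (starRingEnd ℂ) a₀ * x₀ ≠ 0 := by
    intro h
    have h1 : ‖(starRingEnd ℂ) a₀ * x₀‖ = 1 := by
      have : (starRingEnd ℂ) a₀ * x₀ = -1 := by linear_combination h
      rw [this, norm_neg, norm_one]
    rw [norm_mul, RCLike.norm_conj] at h1
    nlinarith [norm_nonneg a₀, norm_nonneg x₀]
  have hc : Tendsto (fun j => (starRingEnd ℂ) (a j)) U (𝓝 ((starRingEnd ℂ) a₀)) := (continuous_conj.tendsto a₀).comp ha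
  exact (hx.add ha).div (tendsto_const_nhds.add (hc.mul hx)) hne

theorem CHB (hFRB : FRB_stmt) (hLMP : LMP_stmt) (hTDL : TDL_stmt) (hDIC : DIC_stmt) (hUBC : RT.UBC_stmt) (hURO : RT.URO_stmt) (hTDF : RT.TDF_stmt)
    (hMOB : HY.MOB_stmt) (hTUL : V3.TUL_stmt) : CHB_stmt := by
  intro s U W x χ χ₁ hF ζ ζ₀ hζ₀ hζ hF1
  obtain ⟨hχd, -⟩ := hFRB s U W x χ hF
  obtain ⟨hTD, -⟩ := hTDL s U W x χ hF
  obtain ⟨-, hcr0, -⟩ := hTDF s _ hTD ζ₀ hζ₀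
  obtain ⟨-, hcr, -⟩ := hDIC s U W x χ hF ζ ζ₀ hζ₀ hζ
  set c₀ : ℝ := cr (χ '' UD) ζ₀ with hc₀
  obtain ⟨u₀, hu₀, hχu₀⟩ := hζ₀
  obtain ⟨u, hu, huj⟩ := hLMP s U W x χ hF u₀ hu₀ ζ (by rw [hχu₀]; exact hζ)
  have hc₀' : (c₀ : ℂ) ≠ 0 := by exact_mod_cast hcr0.ne'
  have hcrC : Tendsto (fun j => (cr (W j) (PT (W j) (x j) (ζ j)) : ℂ) / (cr (W j) (x j) : ℂ)) U (𝓝 (c₀ : ℂ)) := by
    have h1 := (continuous_ofReal.tendsto c₀).comp hcr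
    refine h1.congr fun j => ?_
    simp only [Function.comp_apply, ofReal_div]
  -- basic facts for almost all `j`
  have hbase : ∀ᶠ j in (U : Filter ℕ), (0 < cr (W j) (x j) ∧ 0 < cr (W j) (PT (W j) (x j) (ζ j))) ∧
      ∃ ω : ℂ, ‖ω‖ = 1 ∧ ∀ v ∈ UD, CN (W j) (PT (W j) (x j) (ζ j)) v =
        (CN (W j) (x j) (S (u j) (ω * v)) - ζ j) / ((cr (W j) (PT (W j) (x j) (ζ j)) : ℂ) / (cr (W j) (x j) : ℂ)) := by
    filter_upwards [hF.td, hF1.td, huj] with j h1 h2 h3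
    obtain ⟨hT1, hx1⟩ := h1
    obtain ⟨-, hy1⟩ := h2
    obtain ⟨hu1, hu2⟩ := h3
    obtain ⟨hUC, hcx, -⟩ := hTDF s _ hT1 _ hx1
    obtain ⟨hUCy, hcy, -⟩ := hTDF s _ hT1 _ hy1
    refine ⟨⟨hcx, hcy⟩, ?_⟩
    have hcx' : (cr (W j) (x j) : ℂ) ≠ 0 := by exact_mod_cast hcx.ne'
    have hcy' : (cr (W j) (PT (W j) (x j) (ζ j)) : ℂ) ≠ 0 := by exact_mod_cast hcy.ne'
    have hrm : ∀ w, rm (W j) (x j) w = x j + (cr (W j) (x j) : ℂ) * CN (W j) (x j) w := by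
      intro w
      unfold CN
      field_simp
      ring
    have hy : rm (W j) (x j) (u j) = PT (W j) (x j) (ζ j) := by
      rw [hrm, hu2]
      rfl
    have hUC2 := hUBC _ _ _ hUC (u j) hu1
    rw [hy] at hUC2
    obtain ⟨ω, hω, hωv⟩ := hURO _ _ _ _ hT1.op hUC2 hUCy
    refine ⟨ω, hω, fun v hv => ?_⟩
    have h4 : CN (W j) (PT (W j) (x j) (ζ j)) v = (rm (W j) (PT (W j) (x j) (ζ j)) v - PT (W j) (x j) (ζ j)) / (cr (W j) (PT (W j) (x j) (ζ j)) : ℂ) := rfl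
    rw [h4, hωv v hv, hrm]
    have h5 : PT (W j) (x j) (ζ j) = x j + (cr (W j) (x j) : ℂ) * ζ j := rfl
    rw [div_div_eq_mul_div]
    congr 1
    rw [h5]
    ring
  -- the rotations
  have hch : ∀ j, ∃ ω : ℂ, (0 < cr (W j) (x j) ∧ 0 < cr (W j) (PT (W j) (x j) (ζ j))) ∧ (∃ ω : ℂ, ‖ω‖ = 1 ∧ ∀ v ∈ UD, CN (W j) (PT (W j) (x j) (ζ j)) v =
        (CN (W j) (x j) (S (u j) (ω * v)) - ζ j) / ((cr (W j) (PT (W j) (x j) (ζ j)) : ℂ) / (cr (W j) (x j) : ℂ))) →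
      ‖ω‖ = 1 ∧ ∀ v ∈ UD, CN (W j) (PT (W j) (x j) (ζ j)) v =
        (CN (W j) (x j) (S (u j) (ω * v)) - ζ j) / ((cr (W j) (PT (W j) (x j) (ζ j)) : ℂ) / (cr (W j) (x j) : ℂ)) := by
    intro j
    by_cases h : (∃ ω : ℂ, ‖ω‖ = 1 ∧ ∀ v ∈ UD, CN (W j) (PT (W j) (x j) (ζ j)) v =
        (CN (W j) (x j) (S (u j) (ω * v)) - ζ j) / ((cr (W j) (PT (W j) (x j) (ζ j)) : ℂ) / (cr (W j) (x j) : ℂ)))
    · obtain ⟨ω, h1⟩ := h
      exact ⟨ω, fun _ => h1⟩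
    · exact ⟨0, fun h' => absurd h'.2 h⟩
  choose ω hω using hch
  have hω' : ∀ᶠ j in (U : Filter ℕ), ‖ω j‖ = 1 ∧ ∀ v ∈ UD, CN (W j) (PT (W j) (x j) (ζ j)) v =
        (CN (W j) (x j) (S (u j) (ω j * v)) - ζ j) / ((cr (W j) (PT (W j) (x j) (ζ j)) : ℂ) / (cr (W j) (x j) : ℂ)) := by
    filter_upwards [hbase] with j hj
    exact hω j ⟨hj.1, hj.2⟩
  obtain ⟨ω₀, -, hω₀⟩ := hTUL U ω 1 (by filter_upwards [hω'] with j hj; exact hj.1.le)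
  have hω₀n : ‖ω₀‖ = 1 := by
    have h1 : Tendsto (fun j => ‖ω j‖) U (𝓝 ‖ω₀‖) := hω₀.norm
    have h2 : Tendsto (fun j => ‖ω j‖) U (𝓝 1) := by
      refine Tendsto.congr' ?_ tendsto_const_nhds
      filter_upwards [hω'] with j hj
      exact hj.1.symm
    exact tendsto_nhds_unique h1 h2
  have hω₀0 : ω₀ ≠ 0 := by
    intro h
    rw [h, norm_zero] at hω₀n
    exact zero_ne_one hω₀n
  have hmem : ∀ v ∈ UD, ω₀ * v ∈ UD := by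
    intro v hv
    rw [HY.UD, mem_ball_zero_iff] at hv ⊢
    rw [norm_mul, hω₀n, one_mul]
    exact hv
  obtain ⟨hM1, -⟩ := hMOB u₀ hu₀
  -- the formula for the new frame
  have hform : ∀ v ∈ UD, ζ₀ + (c₀ : ℂ) * χ₁ v = χ (S u₀ (ω₀ * v)) := by
    intro v hv
    have hvS : S u₀ (ω₀ * v) ∈ UD := (hM1 _ (hmem v hv)).2.1
    have hS : Tendsto (fun j => S (u j) (ω j * v)) U (𝓝 (S u₀ (ω₀ * v))) := CHB_S hu (hω₀.mul_const v) hu₀ (hmem v hv)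
    have hUo : IsOpen UD := by rw [HY.UD]; exact isOpen_ball
    have h1 : Tendsto (fun j => CN (W j) (x j) (S (u j) (ω j * v))) U (𝓝 (χ (S u₀ (ω₀ * v)))) := by
      apply hF.cv.tendsto_comp (hχd.continuousOn _ hvS) hvS
      rw [hUo.nhdsWithin_eq hvS]
      exact hS
    have h2 : Tendsto (fun j => (CN (W j) (x j) (S (u j) (ω j * v)) - ζ j) / ((cr (W j) (PT (W j) (x j) (ζ j)) : ℂ) / (cr (W j) (x j) : ℂ))) U
        (𝓝 ((χ (S u₀ (ω₀ * v)) - ζ₀) / (c₀ : ℂ))) := (h1.sub hζ).div hcrC hc₀'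
    have h3 : Tendsto (fun j => CN (W j) (PT (W j) (x j) (ζ j)) v) U (𝓝 ((χ (S u₀ (ω₀ * v)) - ζ₀) / (c₀ : ℂ))) := by
      refine h2.congr' ?_
      filter_upwards [hω'] with j hj
      exact (hj.2 v hv).symm
    have h4 : Tendsto (fun j => CN (W j) (PT (W j) (x j) (ζ j)) v) U (𝓝 (χ₁ v)) := hF1.cv.tendsto_at hv
    have h5 := tendsto_nhds_unique h4 h3
    rw [h5]
    field_simp
    ring
  refine ⟨hcr0, ?_, ?_⟩
  · intro η
    constructor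
    · rintro ⟨v, hv, rfl⟩
      rw [hform v hv]
      exact ⟨_, (hM1 _ (hmem v hv)).2.1, rfl⟩
    · rintro ⟨w, hw, hwη⟩
      obtain ⟨hTw, -, hSTw, -⟩ := hM1 w hw
      refine ⟨ω₀⁻¹ * T u₀ w, ?_, ?_⟩
      · rw [HY.UD, mem_ball_zero_iff] at hTw ⊢
        rw [norm_mul, norm_inv, hω₀n, inv_one, one_mul]
        exact hTw
      · have hv : ω₀⁻¹ * T u₀ w ∈ UD := by
          rw [HY.UD, mem_ball_zero_iff] at hTw ⊢
          rw [norm_mul, norm_inv, hω₀n, inv_one, one_mul]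
          exact hTw
        have h1 := hform _ hv
        rw [mul_inv_cancel_left₀ hω₀0, hSTw, hwη] at h1
        have h2 : (c₀ : ℂ) * χ₁ (ω₀⁻¹ * T u₀ w) = (c₀ : ℂ) * η := add_left_cancel h1
        exact mul_left_cancel₀ hc₀' h2
  · intro η η₀ hη
    have h1 : Tendsto (fun j => ζ j + ((cr (W j) (PT (W j) (x j) (ζ j)) : ℂ) / (cr (W j) (x j) : ℂ)) * η j) U (𝓝 (ζ₀ + (c₀ : ℂ) * η₀)) :=
      hζ.add (hcrC.mul hη)
    refine h1.congr' ?_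
    filter_upwards [hbase] with j hj
    have hcx' : (cr (W j) (x j) : ℂ) ≠ 0 := by exact_mod_cast hj.1.1.ne'
    have h2 : CO (W j) (x j) (PT (W j) (PT (W j) (x j) (ζ j)) (η j)) =
        (x j + (cr (W j) (x j) : ℂ) * ζ j + (cr (W j) (PT (W j) (x j) (ζ j)) : ℂ) * η j - x j) / (cr (W j) (x j) : ℂ) := rfl
    rw [h2]
    field_simp
    ring

end CVL
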